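import Pool.Agent.Lib.MP_688fd0_co.SQ2.Iface
import Pool.Agent.Lib.MP_688fd0_co.OSF.H3.Main

/-!
FINAL: the groups of nice odd order.
-/

set_option autoImplicit false

namespace Pool.Agent.Lib.MP_688fd0_co.SQ2

open Pool.Agent.Lib.MP_688fd0_co.OSF
open Subgroup

universe u v

theorem ofFn_map {G : Type u} {H : Type v} (f : G → H) {n : ℕ} (a : Fin n → G) :
    List.ofFn (fun i => f (a i)) = (List.ofFn a).map f := by
  rw [List.map_ofFn]; rfl

/-- Listing sequences and isomorphisms. -/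
theorem lst_equiv {G : Type u} {H : Type v} [Group G] [Group H] (e : G ≃* H) (A : Set G) (h : Lst (e '' A)) :
    Lst A := by
  obtain ⟨a, h1, h2⟩ := h
  have hc : Nat.card G = Nat.card H := Nat.card_congr e.toEquiv
  have key : ∀ (m : ℕ) (hm : m = Nat.card G) (a : Fin m → H), (∀ i, a i ∈ e '' A) →
      Function.Injective (fun k : Fin m => ((List.ofFn a).take (k + 1)).prod) → Lst A := by
    intro m hm a h1 h2
    subst hm
    refine ⟨fun i => e.symm (a i), fun i => ?_, ?_⟩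
    · obtain ⟨x, hx, hxe⟩ := h1 i
      show e.symm (a i) ∈ A
      rw [← hxe, e.symm_apply_apply]; exact hx
    · intro k k' hk
      apply h2
      have h3 : ∀ k : Fin (Nat.card G), e (((List.ofFn fun i => e.symm (a i)).take (k + 1)).prod) =
          ((List.ofFn a).take (k + 1)).prod := by
        intro k
        rw [map_list_prod, ← List.map_take.symm, ← ofFn_map]
        simp
      have h4 := congrArg e hk
      simp only at h4 ⊢
      rw [← h3 k, ← h3 k']
      exact h4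
  exact key _ hc.symm a h1 h2

/-- The theorem for groups of nice odd order. -/
theorem listing (hM : Main3S) (hg : GNS) : ∃ c : ℕ, ∀ (G : Type u) [Group G] [Finite G], Odd (Nat.card G) →
    Nice c (Nat.card G) → ∀ A : Set G, A.Nonempty → (∀ x ∈ A, x⁻¹ ∈ A) → closure A = ⊤ → Lst A := by
  obtain ⟨c, hM⟩ := hM
  refine ⟨c, ?_⟩
  intro G _ _ hodd hn A hA0 hA hgen
  obtain ⟨k, m, hD, P, hP, hPq, hPb⟩ := hn
  obtain ⟨H, hH, hf, ⟨e⟩⟩ : ∃ (H : Type) (_ : Group H) (_ : Finite H), Nonempty (G ≃* H) :=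
    ⟨Shrink.{0} G, inferInstance, Finite.of_equiv G (equivShrink.{0} G),
      ⟨(Shrink.mulEquiv : Shrink.{0} G ≃* G).symm⟩⟩
  have hcard : Nat.card G = Nat.card H := Nat.card_congr e.toEquiv
  have hkm : Nat.card G = k * m := hD.eq
  have hkm' : Nat.card H = k * m := hcard ▸ hkm
  have hD' : CutD (k * m) k m := hkm ▸ hD
  obtain ⟨N, C, hNC⟩ := hg H k m P hD' hkm' hP (hkm ▸ hPq)
  refine lst_equiv e A ?_
  refine hM H N C k P (e '' A) hNC (hcard ▸ hodd) (hA0.image _) ?_ ?_ ?_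
  · rintro _ ⟨x, hx, rfl⟩
    exact ⟨x⁻¹, hA x hx, map_inv e x⟩
  · have h1 := congrArg (Subgroup.map e.toMonoidHom) hgen
    rw [MonoidHom.map_closure, ← MonoidHom.range_eq_map, MonoidHom.range_eq_top.2 e.surjective] at h1
    exact h1
  · rw [← hcard]; exact hPb

open Classical in
/-- Almost all odd orders. -/
theorem almost (hM : Main3S) (hg : GNS) (hN : NiceS) (ε : ℝ) (hε : 0 < ε) : ∃ x₀ : ℕ, ∀ x ≥ x₀,
    (((Finset.Icc 1 x).filter (fun n => Odd n ∧ ¬ ∀ (G : Type u) [Group G] [Finite G], Nat.card G = n →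
      ∀ A : Set G, A.Nonempty → (∀ x ∈ A, x⁻¹ ∈ A) → closure A = ⊤ → Lst A)).card : ℝ) ≤ ε * x := by
  obtain ⟨c, h⟩ := listing.{u} hM hg
  obtain ⟨x₀, h1⟩ := hN c ε hε
  refine ⟨x₀, fun x hx => le_trans ?_ (h1 x hx)⟩
  norm_cast
  refine Finset.card_le_card fun n hn => ?_
  rw [Finset.mem_filter] at hn ⊢
  refine ⟨hn.1, hn.2.1, fun hnice => hn.2.2 ?_⟩
  intro G _ _ hG A hA0 hA hgen
  subst hG
  exact h G hn.2.1 hnice A hA0 hA hgen

end Pool.Agent.Lib.MP_688fd0_co.SQ2
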