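import Pool.Agent.Lib.MP_688fd0_co.SQ2.H23.HeartA
import Pool.Agent.Lib.MP_688fd0_co.SQ2.H20.Select
import Pool.Agent.Lib.MP_688fd0_co.SQ2.H80.PlaceP

/-!
HEART: the tour of the quotient with unit volume.
-/

set_option autoImplicit false

namespace Pool.Agent.Lib.MP_688fd0_co.SQ2

open Pool.Agent.Lib.MP_688fd0_co.OSF
open Finset

theorem heart (hFl : FlipS) (hCt : CtxS) (hNr : NearS) : HeartS := by
  classical
  intro Q _ _ B a D z k H htop c W hSi hSe hLe m V hm hz hbig hkap hW hP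
  have hfinL := H.finL
  have hk : 0 < k := H.kodd.pos
  obtain ⟨r, hr⟩ : ∃ r, r = m.primeFactors.card := ⟨_, rfl⟩
  obtain ⟨ρ, hρ⟩ : ∃ ρ, ρ = Nat.card B.L := ⟨_, rfl⟩
  obtain ⟨Λ, hΛ⟩ : ∃ Λ, Λ = lam ((ρ + 2) ^ 4 * k) k c := ⟨_, rfl⟩
  obtain ⟨J, hJ⟩ : ∃ J, J = 2 ^ m.primeFactors.card * (m.primeFactors.card + 2) := ⟨_, rfl⟩
  rw [← hr, ← hρ] at hW
  have hW' : needW ρ r k c = 100 * (r + 2) ^ 2 * 2 ^ r * (Λ + 4 * k) := by rw [hΛ]; rfl
  -- total height
  have hΛ1 : 4 * (c + k) + 40000 ≤ Λ := by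
    rw [hΛ]
    unfold lam hgt
    set f := ((ρ + 2) ^ 4 * k).factorial
    set g := (ρ + 2) ^ 4 * k * k * ((ρ + 2) ^ 4 * k) ^ ((ρ + 2) ^ 4 * k)
    have h1 : 10000 * (4 * f + 4 * (c + k) + 8 + 4 * k + 4) ≤ 1000 * (g + 10) * (4 * f + 4 * (c + k) + 8 + 4 * k + 4) :=
      Nat.mul_le_mul_right _ (by omega)
    omega
  have htot : r * J * Λ + Λ + 1 ≤ W := by
    refine le_trans ?_ hW
    rw [hW', hJ, ← hr]
    have h1 : 1 ≤ 2 ^ r := Nat.one_le_two_pow
    have e : 100 * (r + 2) ^ 2 * 2 ^ r * (Λ + 4 * k) = 100 * (r + 2) * 2 ^ r * (Λ + 4 * k) * (r + 2) := by ring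
    have h2 : r * (2 ^ r * (r + 2)) * Λ + Λ + 1 ≤ (r + 2) * 2 ^ r * (Λ + 4 * k) * (r + 2) := by
      have h3 : r * (2 ^ r * (r + 2)) * Λ ≤ r * (2 ^ r * (r + 2)) * (Λ + 4 * k) := Nat.mul_le_mul_left _ (by omega)
      have h4 : Λ + 1 ≤ 2 * (2 ^ r * (r + 2)) * (Λ + 4 * k) := by
        have h5 : 1 ≤ 2 ^ r * (r + 2) := Nat.mul_pos (by omega) (by omega)
        have h6 : 2 * 1 * (Λ + 4 * k) ≤ 2 * (2 ^ r * (r + 2)) * (Λ + 4 * k) :=
          Nat.mul_le_mul_right _ (Nat.mul_le_mul_left _ h5)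
        omega
      calc r * (2 ^ r * (r + 2)) * Λ + Λ + 1 ≤ r * (2 ^ r * (r + 2)) * (Λ + 4 * k) +
            2 * (2 ^ r * (r + 2)) * (Λ + 4 * k) := by omega
        _ = _ := by ring
    rw [e]
    refine h2.trans ?_
    refine Nat.mul_le_mul_right _ (Nat.mul_le_mul_right _ (Nat.mul_le_mul_right _ ?_))
    omega
  have hΛW : Λ ≤ W := by omega
  obtain ⟨d, N, x, b₁, b₂, j, F, rk, C, hN, TL⟩ := hCt Q B a D z k H htop c W hSi hSe hLe (by omega)
  have hFc : ∀ i, (F i).card ≤ (ρ + 2) ^ 4 * k := fun i => by rw [hρ]; exact C.fcard i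
  have hlam : ∀ i, lam (F i).card k c ≤ Λ := fun i => by rw [hΛ]; exact lam_mono (hFc i)
  obtain ⟨t₀, ht₀, hE, hV⟩ := hFl Q B a D z k H c W d (Fin N) x b₁ b₂ j F C fun i => (hlam i).trans hΛW
  -- the leaves
  have hlv : ∀ i, ∃ s : Q × Q, Leaves a (F i) (x i) (b₁ i) (b₂ i) (j i) c s.1 s.2 := by
    intro i
    obtain ⟨s₁, s₂, h⟩ := leaves H (C.fr i) (x := x i) (b₁ := b₁ i) (b₂ := b₂ i) (j := j i) (c := c)
      (C.fsh i [b₁ i] (by simp)) (C.fsh i [b₂ i] (by simp))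
    exact ⟨(s₁, s₂), h⟩
  choose s hs using hlv
  choose E nE hnE hE using fun i => hE i _ _ (hs i)
  -- the primes
  have hV' : ∀ q : m.primeFactors, ∃ (i : Fin N) (X X' : TW B) (n : ℕ), n ≤ lam (F i).card k c ∧
      FWin a k (F i) (t₀ i) (x i) (s i).1 (s i).2 X n ∧ Ver a X X' n ((s i).2 * B.q a ^ t₀ i) ∧
      dvol (V.map (red (Nat.dvd_of_mem_primeFactors q.2))) d X X' ≠ 0 := by
    intro q
    have hq := Nat.prime_of_mem_primeFactors q.2
    obtain ⟨i, hi⟩ := hV q ⟨hq⟩ (V.map (red (Nat.dvd_of_mem_primeFactors q.2))) (hbig q q.2) (by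
      show red (Nat.dvd_of_mem_primeFactors q.2) (V.chi z) = 1
      rw [hz, map_one]) (hkap q q.2)
    obtain ⟨X, X', n, h⟩ := hi _ _ (hs i)
    exact ⟨i, X, X', n, h⟩
  choose iq Xq Xq' nq hnq hFq hVq hdq using hV'
  -- the slots
  let κ := (m.primeFactors × Fin J) ⊕ Fin N
  let π : κ → Fin N := Sum.elim (fun p => iq p.1) id
  let X₀ : κ → TW B := Sum.elim (fun p => Xq p.1) E
  let X₀' : κ → TW B := Sum.elim (fun p => Xq' p.1) E
  let h : κ → ℕ := Sum.elim (fun p => nq p.1) nE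
  have hF₀ : ∀ l : κ, FWin a k (F (π l)) (t₀ (π l)) (x (π l)) (s (π l)).1 (s (π l)).2 (X₀ l) (h l) := by
    rintro (p | i)
    · exact hFq p.1
    · exact hE i
  have hV₀ : ∀ l : κ, Ver a (X₀ l) (X₀' l) (h l) ((s (π l)).2 * B.q a ^ t₀ (π l)) := by
    rintro (p | i)
    · exact hVq p.1
    · exact Ver.refl (hE i).flat
  have hh : ∀ l, h l ≤ Λ := by
    rintro (p | i)
    · exact (hnq p.1).trans (hlam _)
    · exact (hnE i).trans (hlam _)
  obtain ⟨n, hn⟩ : ∃ n : Fin N → ℕ, n = fun i => ∑ l with π l = i, h l := ⟨_, rfl⟩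
  have hn1 : ∀ i, n i + 1 ≤ W := by
    intro i
    refine le_trans ?_ htot
    have h1 : n i ≤ ∑ p : m.primeFactors × Fin J, nq p.1 + nE i := by
      rw [hn]
      show ∑ l with π l = i, h l ≤ _
      rw [Finset.sum_filter, Fintype.sum_sum_type]
      refine Nat.add_le_add ?_ ?_
      · refine Finset.sum_le_sum fun p _ => ?_
        by_cases hp : π (Sum.inl p) = i
        · rw [if_pos hp]; exact le_rfl
        · rw [if_neg hp]; exact Nat.zero_le _
      · have h2 : ∀ i' : Fin N, (if π (Sum.inr i') = i then h (Sum.inr i') else 0) = if i' = i then nE i' else 0 :=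
          fun _ => rfl
        rw [Finset.sum_congr rfl fun i' _ => h2 i', Finset.sum_ite_eq' Finset.univ i, if_pos (Finset.mem_univ _)]
    have h2 : ∑ p : m.primeFactors × Fin J, nq p.1 ≤ r * J * Λ := by
      refine (Finset.sum_le_card_nsmul Finset.univ _ Λ fun p _ => (hnq p.1).trans (hlam _)).trans ?_
      rw [Finset.card_univ, Fintype.card_prod, Fintype.card_coe, Fintype.card_fin, smul_eq_mul, ← hr]
    have h3 : nE i ≤ Λ := (hnE i).trans (hlam i)
    omega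
  -- the places
  obtain ⟨u, hu⟩ : ∃ u, u = B.q a ^ k := ⟨_, rfl⟩
  have huc : ∀ y, u * y = y * u := fun y => by rw [hu]; exact H.hcen_k y
  have huz : ∀ (l : ℤ) (y : Q), u ^ l * y = y * B.q a ^ ((k : ℤ) * l) := by
    intro l y
    rw [((show Commute u y from huc y).zpow_left l).eq, hu, zpow_mul, zpow_natCast]
  let Gr : Fin N → Finset Q := fun i => (range (n i + 1)).biUnion fun t => rt (F i) (B.q a ^ (t₀ i + t))
  have hGr : ∀ i y, y ∈ Gr i ↔ ∃ t, t ≤ n i ∧ ∃ f ∈ F i, y = f * B.q a ^ (t₀ i + t) := by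
    intro i y
    show y ∈ (range (n i + 1)).biUnion _ ↔ _
    rw [Finset.mem_biUnion]
    constructor
    · rintro ⟨t, ht, hy⟩
      rw [mem_rt] at hy
      exact ⟨t, by have := Finset.mem_range.1 ht; omega, _, hy, by group⟩
    · rintro ⟨t, ht, f, hf, rfl⟩
      exact ⟨t, Finset.mem_range.2 (by omega), mul_mem_rt.2 hf⟩
  have hGrc : ∀ i, (Gr i).card ≤ (ρ + 2) ^ 4 * k * W := by
    intro i
    refine Finset.card_biUnion_le.trans ?_
    refine (Finset.sum_le_card_nsmul _ _ ((ρ + 2) ^ 4 * k) ?_).trans ?_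
    · intro t _
      unfold rt
      rw [Finset.card_map]
      exact hFc i
    · rw [Finset.card_range, smul_eq_mul, mul_comm]
      exact Nat.mul_le_mul_left _ (hn1 i)
  obtain ⟨w, hw, hwd⟩ := place Q u (Fin N) Gr ((ρ + 2) ^ 4 * k * W) ((ρ + 2) ^ 10 * k) hGrc (by
      intro i
      obtain ⟨S, hS1, hS2⟩ := hNr Q B a D z k H c W d N x b₁ b₂ j F rk C TL i
      refine ⟨S, by rw [hρ]; exact hS1, fun i' hi' y hy y' hy' l l' => ?_⟩
      rw [huz, huz]
      obtain ⟨t, -, f, hf, rfl⟩ := (hGr i y).1 hy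
      obtain ⟨t', -, f', hf', rfl⟩ := (hGr i' y').1 hy'
      have h1 := hS2 i' hi' f hf f' hf' ((t₀ i + t : ℕ) + (k : ℤ) * l) ((t₀ i' + t' : ℕ) + (k : ℤ) * l')
      rw [zpow_add, zpow_add, zpow_natCast, zpow_natCast, ← mul_assoc, ← mul_assoc] at h1
      exact h1) (by
      rw [hu]
      refine lt_of_le_of_lt ?_ hP
      rw [← hρ]
      have e1 : (ρ + 2) ^ 10 * k * ((ρ + 2) ^ 4 * k * W) ^ 2 = (ρ + 2) ^ 18 * k ^ 3 * W ^ 2 := by ring
      rw [e1]
      refine Nat.mul_le_mul_right _ (Nat.mul_le_mul ?_ ?_)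
      · exact Nat.pow_le_pow_right (by omega) (by omega)
      · exact Nat.pow_le_pow_right hk (by omega))
  have hwl : ∀ i, ∃ l : ℤ, ∀ y, w i * y = y * B.q a ^ l := by
    intro i
    obtain ⟨l, hl⟩ := Subgroup.mem_zpowers_iff.1 (hw i)
    exact ⟨(k : ℤ) * l, fun y => by rw [← hl]; exact huz l y⟩
  have hd : ∀ (y : Q) (l : ℤ), d (y * B.q a ^ l) = d y := by
    have h1 : ∀ (y : Q) (l : ℕ), d (y * B.q a ^ l) = d y := by
      intro y l
      induction l with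
      | zero => rw [pow_zero, mul_one]
      | succ l ih => rw [pow_succ, ← mul_assoc, C.d_line, ih]
    intro y l
    obtain ⟨l, rfl | rfl⟩ := l.eq_nat_or_neg
    · rw [zpow_natCast]; exact h1 y l
    · rw [← h1 (y * B.q a ^ (-(l : ℤ))) l, zpow_neg, zpow_natCast, inv_mul_cancel_right]
  have hdw : ∀ i y, d (w i * y) = d y := by
    intro i y
    obtain ⟨l, hl⟩ := hwl i
    rw [hl, hd]
  let ln : Q → Q ⧸ Subgroup.zpowers (B.q a) := fun y => (y : Q ⧸ Subgroup.zpowers (B.q a))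
  have hlz : ∀ (y : Q) (l : ℤ), ln (y * B.q a ^ l) = ln y := by
    intro y l
    show ((y * B.q a ^ l : Q) : Q ⧸ Subgroup.zpowers (B.q a)) = _
    rw [QuotientGroup.eq, mul_inv_rev, inv_mul_cancel_right]
    exact Subgroup.inv_mem _ (Subgroup.zpow_mem_zpowers _ _)
  have hln : ∀ (y : Q) (l : ℕ), ln (y * B.q a ^ l) = ln y := fun y l => by
    have := hlz y l
    rwa [zpow_natCast] at this
  have hlw : ∀ i y, ln (w i * y) = ln y := by
    intro i y
    obtain ⟨l, hl⟩ := hwl i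
    rw [hl, hlz]
  -- the points
  let pu₁ : Fin N → Q := fun i => w i * (x i * B.q a ^ t₀ i)
  let pu₀ : Fin N → Q := fun i => w i * ((s i).1 * B.q a ^ t₀ i)
  let pxs : Fin N → Q := fun i => w i * ((s i).2 * B.q a ^ t₀ i)
  let L₀ : Fin N → Finset Q := fun i => lt (w i) (rt (F i) (B.q a ^ t₀ i))
  have hl1 : ∀ i, ln (pu₁ i) = ln (x i) := fun i => by
    show ln (w i * (x i * B.q a ^ t₀ i)) = _
    rw [hlw, hln]
  have hl0 : ∀ i, ln (pu₀ i) = ln (x i * B.q (b₁ i)) := fun i => by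
    show ln (w i * ((s i).1 * B.q a ^ t₀ i)) = _
    obtain ⟨o, -, ho⟩ := (hs i).e₁
    rw [hlw, hln, ho, hlz]
  have hls : ∀ i, ln (pxs i) = ln (x i * B.q a ^ j i * B.q (b₂ i)) := fun i => by
    show ln (w i * ((s i).2 * B.q a ^ t₀ i)) = _
    obtain ⟨o, -, ho⟩ := (hs i).e₂
    rw [hlw, hln, ho, hlz]
  have hTL : TreeL ln pu₁ pu₀ pxs rk := TL.congr hl1 hl0 hls
  have hdn : ∀ (y : Q) (l : ℕ), d (y * B.q a ^ l) = d y := fun y l => by
    have := hd y l
    rwa [zpow_natCast] at this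
  have hdir : ∀ i, d (pu₀ i) = !d (pu₁ i) ∧ d (pxs i) = !d (pu₁ i) := by
    intro i
    have e1 : d (pu₁ i) = d (x i) := by
      show d (w i * (x i * B.q a ^ t₀ i)) = _
      rw [hdw, hdn]
    have e2 : d (pu₀ i) = d (x i * B.q (b₁ i)) := by
      show d (w i * ((s i).1 * B.q a ^ t₀ i)) = _
      obtain ⟨o, -, ho⟩ := (hs i).e₁
      rw [hdw, hdn, ho, hd]
    have e3 : d (pxs i) = d (x i * B.q a ^ j i * B.q (b₂ i)) := by
      show d (w i * ((s i).2 * B.q a ^ t₀ i)) = _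
      obtain ⟨o, -, ho⟩ := (hs i).e₂
      rw [hdw, hdn, ho, hd]
    rw [e1, e2, e3]
    exact ⟨C.d₁ i, C.d₂ i⟩
  have hPos : Pos (B.q a) L₀ n pu₁ pu₀ pxs := by
    refine ⟨fun i => ?_, fun i => ?_, fun i => ?_, fun i => ?_, ?_⟩
    · have h1 : h (Sum.inr i) ≤ n i := by
        rw [hn]
        exact Finset.single_le_sum (f := h) (fun _ _ => Nat.zero_le _)
          (Finset.mem_filter.2 ⟨Finset.mem_univ (Sum.inr i), rfl⟩)
      have h2 : 0 < nE i := (hE i).flat.pos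
      exact lt_of_lt_of_le h2 h1
    · exact mul_mem_lt.2 (mul_mem_rt.2 (C.fx i))
    · exact mul_mem_lt.2 (mul_mem_rt.2 (hs i).h₁)
    · exact mul_mem_lt.2 (mul_mem_rt.2 (hs i).h₂)
    · intro i i' y y' t t' hy hy' ht ht' he
      have hy := mem_lt.1 hy
      have hy' := mem_lt.1 hy'
      rw [mem_rt] at hy hy'
      obtain ⟨f, hf⟩ : ∃ f, f = (w i)⁻¹ * y * (B.q a ^ t₀ i)⁻¹ := ⟨_, rfl⟩
      obtain ⟨f', hf'⟩ : ∃ f', f' = (w i')⁻¹ * y' * (B.q a ^ t₀ i')⁻¹ := ⟨_, rfl⟩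
      rw [← hf] at hy
      rw [← hf'] at hy'
      have e1 : y = w i * (f * B.q a ^ t₀ i) := by rw [hf]; group
      have e2 : y' = w i' * (f' * B.q a ^ t₀ i') := by rw [hf']; group
      have e3 : y * B.q a ^ t = w i * (f * B.q a ^ (t₀ i + t)) := by rw [e1, pow_add]; group
      have e4 : y' * B.q a ^ t' = w i' * (f' * B.q a ^ (t₀ i' + t')) := by rw [e2, pow_add]; group
      by_cases hii : i = i'
      · subst hii
        rw [e3, e4] at he
        have he := mul_left_cancel he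
        have h3 : f' = f * B.q a ^ ((t : ℤ) - t') := by
          have h4 : f * B.q a ^ (t₀ i + t) * (B.q a ^ (t₀ i + t'))⁻¹ = f' := by
            rw [he, mul_inv_cancel_right]
          rw [← h4, zpow_sub, zpow_natCast, zpow_natCast, pow_add, pow_add]
          group
        have h5 := (C.fr i).disj f hy ((t : ℤ) - t') (by
          have := hn1 i
          rw [abs_le]; constructor <;> omega) (by rw [← h3]; exact hy')
        have h6 : t = t' := by omega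
        subst h6
        have h7 : f * B.q a ^ (t₀ i + t) = f' * B.q a ^ (t₀ i + t) := he
        have h8 := mul_right_cancel h7
        refine ⟨rfl, ?_, rfl⟩
        rw [e1, e2, h8]
      · exfalso
        refine hwd i i' hii _ ((hGr i _).2 ⟨t, ht, f, hy, rfl⟩) _ ((hGr i' _).2 ⟨t', ht', f', hy', rfl⟩) ?_
        rw [← e3, ← e4]; exact he
  obtain ⟨T, hT⟩ := blocks a ln d rk (fun y => by
      have := hln y 1
      rwa [pow_one] at this) (fun y y' hyy => by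
      have h1 : y⁻¹ * y' ∈ Subgroup.zpowers (B.q a) := QuotientGroup.eq.1 hyy
      have h2 := (mem_powers_iff_mem_zpowers).2 h1
      obtain ⟨l, hl⟩ := Submonoid.mem_powers_iff _ _ |>.1 h2
      exact ⟨l, by rw [hl, mul_inv_cancel_left]⟩) QuotientGroup.mk_surjective C.d_line
    π (fun i => ⟨Sum.inr i, rfl⟩) h (fun l => (X₀ l).tr (w (π l))) (fun l => (X₀' l).tr (w (π l))) L₀ pu₀ pu₁ pxs
    (fun l => (hV₀ l).tr (w (π l)))
    (fun l => ⟨congrArg (lt (w (π l))) (hF₀ l).L₀, congrArg (w (π l) * ·) (hF₀ l).u₀,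
      congrArg (w (π l) * ·) (hF₀ l).u₁⟩)
    (fun l y => H.hcen_dvd (hF₀ l).dvd y) hdir (by rw [hn] at hPos; exact hPos) hTL
  refine select hm V J hJ (fun q i => (Sum.inl (q, i) : κ)) (fun q i q' i' hq => by
      have h1 := Sum.inl.inj hq
      exact ⟨congrArg Prod.fst h1, congrArg Prod.snd h1⟩) T
    (fun l p hp => dvol (V.map (red (Nat.dvd_of_mem_primeFactors hp))) d ((X₀ l).tr (w (π l))) ((X₀' l).tr (w (π l))))
    (fun q p hp => dvol (V.map (red (Nat.dvd_of_mem_primeFactors hp))) d ((Xq q).tr (w (iq q)))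
      ((Xq' q).tr (w (iq q)))) (fun q i p hp => rfl) ?_ ?_
  · intro p hp
    rw [dvol_tr _ _ _ _ _ (hdw _)]
    have h1 : (V.map (red (Nat.dvd_of_mem_primeFactors hp))).chi (w (iq ⟨p, hp⟩)) = 1 := by
      obtain ⟨l, hl⟩ := Subgroup.mem_zpowers_iff.1 (hw (iq ⟨p, hp⟩))
      rw [← hl, hu, H.hpow_k]
      show red (Nat.dvd_of_mem_primeFactors hp) (V.chi ((z ^ k) ^ l)) = 1
      have h2 : V.chi ((z ^ k) ^ l) = 1 := by
        have h3 : V.chi (z ^ k) = 1 := by rw [map_pow, hz, one_pow]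
        obtain ⟨l, rfl | rfl⟩ := l.eq_nat_or_neg
        · rw [zpow_natCast, map_pow, h3, one_pow]
        · have h4 : V.chi ((z ^ k) ^ (-(l : ℤ))) * V.chi ((z ^ k) ^ l) = 1 := by
            rw [← map_mul, zpow_neg, zpow_natCast, inv_mul_cancel, map_one]
          rw [map_pow, h3, one_pow, mul_one] at h4
          exact h4
      rw [h2, map_one]
    rw [h1, one_mul]
    exact hdq ⟨p, hp⟩
  · intro cc
    obtain ⟨T', hT'⟩ := hT cc
    refine ⟨T', fun p hp => ?_⟩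
    exact hT' (ZMod p) (V.map (red (Nat.dvd_of_mem_primeFactors hp))) fun l => by
      show red (Nat.dvd_of_mem_primeFactors hp) (V.chi (B.q a ^ h l)) = 1
      obtain ⟨q, hq⟩ := (hF₀ l).dvd
      have h5 : V.chi (z ^ k) = 1 := by rw [map_pow, hz, one_pow]
      rw [hq, pow_mul, H.hpow_k, map_pow V.chi, h5, one_pow, map_one]

end Pool.Agent.Lib.MP_688fd0_co.SQ2
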