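import Pool.Agent.Lib.MP_688fd0_co.SQ2.H23.Str2
import Pool.Agent.Lib.MP_688fd0_co.SQ2.H23.Main3
import Pool.Agent.Lib.MP_688fd0_co.SQ2.H23.Final
import Pool.Agent.Lib.MP_688fd0_co.SQ2.H23.Heart
import Pool.Agent.Lib.MP_688fd0_co.SQ2.V.FlipAll
import Pool.Agent.Lib.MP_688fd0_co.SQ2.H62.Near
import Pool.Agent.Lib.MP_688fd0_co.SQ2.H35.Ctx
import Pool.Agent.Lib.MP_688fd0_co.SQ2.H9.Dstr
import Pool.Agent.Lib.MP_688fd0_co.SQ2.H41.Gnq
import Pool.Agent.Lib.MP_688fd0_co.SQ2.H41.Gns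
import Pool.Agent.Lib.MP_688fd0_co.SQ2.H41.ScaleS
import Pool.Agent.Lib.MP_688fd0_co.SQ2.H41.Den
import Pool.Agent.Lib.MP_688fd0_co.SQ2.H80.Kap
import Pool.Agent.Lib.MP_688fd0_co.OSF.H23.StrAll
import Pool.Agent.Lib.MP_688fd0_co.OSF.H3.Main2
import Pool.Agent.Lib.MP_688fd0_co.OSF.H74.Loop
import Pool.Agent.Lib.MP_688fd0_co.OSF.H79.Linegen
import Pool.Agent.Lib.MP_688fd0_co.OSF.H87.Smallgen2

/-!
Every group of almost every odd order: the assembly.
-/

set_option autoImplicit false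

namespace Pool.Agent.Lib.MP_688fd0_co.SQ2

open Pool.Agent.Lib.MP_688fd0_co.OSF

theorem main2All : Main2S.{0} := H3.main2 H23.strAll loop H87.smallgen2 linegen

theorem main3Of (h : HeartS) (hd : DstrS) (hq : GnqS) : Main3S :=
  main3 (str2 h H41.scaleS kap hd main2All factor hdata) loop H87.smallgen2 hq

theorem heartAll : HeartS := heart flipS ctx near

theorem main3All : Main3S := main3Of heartAll H9.dstr H41.gnq

end Pool.Agent.Lib.MP_688fd0_co.SQ2
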