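import Pool.Agent.Lib.MP_688fd0_co.SQ2.Iface

/-!
HEART, tools: translation of flat windows, the leaves, bounds.
-/

set_option autoImplicit false

namespace Pool.Agent.Lib.MP_688fd0_co.SQ2

open Pool.Agent.Lib.MP_688fd0_co.OSF

universe u v

section tr

variable {Q : Type u} [Group Q] [DecidableEq Q] {B : Lb.{u, v} Q} {a : B.L}

omit [DecidableEq Q] in
theorem lt_val_map (y : Q) (L : Finset Q) : (lt y L).val = L.val.map (y * ·) := rfl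

theorem tr_tok₀ (X : TW B) (y x : Q) : x ∈ (X.tr y).tok₀ ↔ y⁻¹ * x ∈ X.tok₀ := by
  rw [TW.mem_tok₀, TW.mem_tok₀]
  show x ∈ lt y X.L₀ ∧ x ≠ y * X.u₀ ∧ x ≠ y * X.u₁ ↔ y⁻¹ * x ∈ X.L₀ ∧ y⁻¹ * x ≠ X.u₀ ∧ y⁻¹ * x ≠ X.u₁
  rw [mem_lt, Ne, Ne, Ne, Ne, inv_mul_eq_iff_eq_mul, inv_mul_eq_iff_eq_mul]

/-- Translation of a flat window. -/
theorem Flat.tr {X : TW B} {n : ℕ} {xs : Q} (h : Flat a X n xs) (y : Q) : Flat a (X.tr y) n (y * xs) where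
  pos := h.pos
  top := by
    show lt y X.L₁ = rt (lt y X.L₀) _
    rw [h.top, lt_rt]
  reg := by
    rw [TW.tr_R, h.reg, ← Multiset.coe_mapAddMonoidHom, map_sum]
    refine Finset.sum_congr rfl fun i _ => ?_
    show (rt X.L₀ (B.q a ^ i)).val.map (y * ·) = (rt (lt y X.L₀) (B.q a ^ i)).val
    rw [← lt_rt]; rfl
  xs_mem := by rw [tr_tok₀, inv_mul_cancel_left]; exact h.xs_mem
  w₀ := by
    show y * X.w₀ = y * X.u₁ * _
    rw [h.w₀, mul_assoc]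
  w₁ := by
    show y * X.w₁ = y * xs * _
    rw [h.w₁, mul_assoc]
  f_xs := by
    show y * X.f (y⁻¹ * (y * xs)) = y * X.u₀ * _
    rw [inv_mul_cancel_left, h.f_xs, mul_assoc]
  f := fun x hx hne => by
    show y * X.f (y⁻¹ * x) = x * _
    rw [tr_tok₀] at hx
    rw [h.f _ hx (fun h => hne (by rw [← h, mul_inv_cancel_left])), ← mul_assoc, mul_inv_cancel_left]

theorem Ver.tr {X X' : TW B} {n : ℕ} {xs : Q} (h : Ver a X X' n xs) (y : Q) :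
    Ver a (X.tr y) (X'.tr y) n (y * xs) where
  flat := h.flat.tr y
  flat' := h.flat'.tr y
  L₀ := congrArg (lt y) h.L₀
  u₀ := congrArg (y * ·) h.u₀
  u₁ := congrArg (y * ·) h.u₁
  cup := h.cup
  cap := h.cap

theorem Ver.refl {X : TW B} {n : ℕ} {xs : Q} (h : Flat a X n xs) : Ver a X X n xs :=
  ⟨h, h, rfl, rfl, rfl, rfl, rfl⟩

/-- Translation and change of volume. -/
theorem dvol_tr {R : Type*} [CommRing R] (V : Vd B R) (d : Q → Bool) (X X' : TW B) (y : Q) (hd : ∀ x, d (y * x) = d x) :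
    dvol V d (X.tr y) (X'.tr y) = V.chi y * dvol V d X X' := by
  unfold dvol
  rw [Finset.mul_sum]
  refine Finset.sum_nbij' (fun x => y⁻¹ * x) (fun x => y * x) ?_ ?_ ?_ ?_ ?_
  · intro x hx; exact (tr_tok₀ X y x).1 hx
  · intro x hx
    rw [tr_tok₀, inv_mul_cancel_left]; exact hx
  · intro x _; exact mul_inv_cancel_left y x
  · intro x _; exact inv_mul_cancel_left y x
  · intro x _
    have e1 : d (y⁻¹ * x) = d x := by rw [← hd (y⁻¹ * x), mul_inv_cancel_left]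
    have e2 : V.vol x ((X.tr y).path x) = V.chi y * V.vol (y⁻¹ * x) (X.path (y⁻¹ * x)) := by
      rw [← vol_tr, mul_inv_cancel_left]; rfl
    have e3 : V.vol x ((X'.tr y).path x) = V.chi y * V.vol (y⁻¹ * x) (X'.path (y⁻¹ * x)) := by
      rw [← vol_tr, mul_inv_cancel_left]; rfl
    rw [e1, e2, e3]
    ring

end tr

/-- The tree condition depends only on the lines. -/
theorem TreeL.congr {Q : Type u} {Λ : Type*} {ln : Q → Λ} {ι : Type*} {c l m c' l' m' : ι → Q} {rk : ι → ℕ}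
    (h : TreeL ln c l m rk) (hc : ∀ i, ln (c' i) = ln (c i)) (hl : ∀ i, ln (l' i) = ln (l i))
    (hm : ∀ i, ln (m' i) = ln (m i)) : TreeL ln c' l' m' rk where
  cl := fun i => by rw [hc, hl]; exact h.cl i
  cm := fun i => by rw [hc, hm]; exact h.cm i
  lm := fun i => by rw [hl, hm]; exact h.lm i
  two := fun i => by
    obtain ⟨p, h1, h2⟩ := h.two i
    refine ⟨fun x => ∃ y, p y ∧ ln x = ln y, ?_, ?_⟩
    · rcases h1 with ⟨h3, h4⟩ | ⟨h3, h4⟩ | ⟨h3, h4⟩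
      · exact Or.inl ⟨⟨_, h3, hc i⟩, ⟨_, h4, hl i⟩⟩
      · exact Or.inr (Or.inl ⟨⟨_, h3, hc i⟩, ⟨_, h4, hm i⟩⟩)
      · exact Or.inr (Or.inr ⟨⟨_, h3, hl i⟩, ⟨_, h4, hm i⟩⟩)
    · rintro x ⟨y, hy, hxy⟩ j hj h3
      rw [hxy, hc, hl, hm] at h3
      exact h2 y hy j hj h3
  cov := fun ρ hρ h1 => h.cov ρ hρ fun i => by
    have := h1 i
    rw [hc, hl, hm] at this
    exact this

theorem hgt_mono {σ σ' c : ℕ} (h : σ ≤ σ') : hgt σ c ≤ hgt σ' c := by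
  unfold hgt
  have := Nat.factorial_le h
  omega

theorem pow_self_mono {σ σ' : ℕ} (h : σ ≤ σ') : σ ^ σ ≤ σ' ^ σ' := by
  rcases Nat.eq_zero_or_pos σ with h0 | h0
  · subst h0
    rcases Nat.eq_zero_or_pos σ' with h1 | h1
    · subst h1; exact le_rfl
    · exact Nat.one_le_pow _ _ h1
  · exact (Nat.pow_le_pow_left h σ).trans (Nat.pow_le_pow_right (by omega) h)

theorem lam_mono {σ σ' k c : ℕ} (h : σ ≤ σ') : lam σ k c ≤ lam σ' k c := by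
  unfold lam
  have h1 := pow_self_mono h
  have h2 := hgt_mono (c := c + k) h
  have h3 : σ * k * σ ^ σ ≤ σ' * k * σ' ^ σ' := Nat.mul_le_mul (Nat.mul_le_mul_right k h) h1
  exact Nat.mul_le_mul (by omega) (by omega)

section hyp

variable {Q : Type} [Group Q] {B : Lb.{0, 0} Q} {a : B.L} {D : Subgroup Q} {z : Q} {k : ℕ} (H : Hyp B a D z k)

include H

theorem Hyp.hpow (j : ℕ) : ∃ δ ∈ D, B.q a ^ j = z ^ j * δ ∧ ∀ x, z ^ j * x = x * z ^ j := by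
  have hc : ∀ j : ℕ, ∀ x, z ^ j * x = x * z ^ j := fun j x =>
    ((show Commute z x from H.cen x).pow_left j).eq
  have h1 : B.q a ^ j = z ^ j * (z⁻¹ * B.q a) ^ j := by
    have h2 : Commute z (z⁻¹ * B.q a) := H.cen _
    rw [← h2.mul_pow, mul_inv_cancel_left]
  exact ⟨_, D.pow_mem H.mem j, h1, hc j⟩

theorem Hyp.hpow_k : B.q a ^ k = z ^ k := by
  have h2 : Commute z (z⁻¹ * B.q a) := H.cen _
  have h1 : B.q a ^ k = z ^ k * (z⁻¹ * B.q a) ^ k := by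
    rw [← h2.mul_pow, mul_inv_cancel_left]
  have hf := H.fin
  have h3 : (z⁻¹ * B.q a) ^ k = 1 := by
    obtain ⟨q, hq⟩ := H.card
    have h4 : (⟨_, H.mem⟩ : D) ^ Nat.card D = 1 := pow_card_eq_one'
    have h5 := congrArg Subtype.val h4
    have h6 : (z⁻¹ * B.q a) ^ Nat.card D = 1 := h5
    rw [hq, pow_mul, h6, one_pow]
  rw [h1, h3, mul_one]

theorem Hyp.hcen_k (x : Q) : B.q a ^ k * x = x * B.q a ^ k := by
  rw [H.hpow_k]
  exact ((show Commute z x from H.cen x).pow_left k).eq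

theorem Hyp.hcen_dvd {n : ℕ} (h : k ∣ n) (x : Q) : x * B.q a ^ n = B.q a ^ n * x := by
  obtain ⟨q, rfl⟩ := h
  rw [pow_mul]
  exact ((show Commute x (B.q a ^ k) from (H.hcen_k x).symm).pow_right q).eq

/-- The commutators with the powers of `A` are in `D`. -/
theorem Hyp.hcom (j : ℕ) (x : Q) : ∃ δ ∈ D, B.q a ^ j * x = x * B.q a ^ j * δ := by
  have hn := H.nrm
  obtain ⟨δ, hδ, h1, h2⟩ := H.hpow j
  refine ⟨(B.q a ^ j)⁻¹ * (x⁻¹ * (B.q a ^ j * x)), ?_, by group⟩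
  have e : (B.q a ^ j)⁻¹ * (x⁻¹ * (B.q a ^ j * x)) = δ⁻¹ * (x⁻¹ * δ * x) := by
    rw [h1]
    have h3 := h2 x
    calc (z ^ j * δ)⁻¹ * (x⁻¹ * (z ^ j * δ * x)) = δ⁻¹ * ((z ^ j)⁻¹ * x⁻¹ * z ^ j) * δ * x := by group
      _ = δ⁻¹ * x⁻¹ * δ * x := by
        have h4 : (z ^ j)⁻¹ * x⁻¹ * z ^ j = x⁻¹ := by
          have h5 := h2 x⁻¹
          rw [mul_assoc, ← h5, inv_mul_cancel_left]
        rw [h4]
      _ = _ := by group
  rw [e]
  refine D.mul_mem (D.inv_mem hδ) ?_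
  have h6 := hn.conj_mem δ hδ x⁻¹
  rwa [inv_inv] at h6

/-- The leaves exist. -/
theorem leaves {c W : ℕ} {F : Finset Q} (hF : Fr B a D W F) {x : Q} {b₁ b₂ : B.L} {j : ℕ}
    (h1 : ∃ o : ℤ, |o| ≤ c ∧ x * B.q b₁ * (B.q a ^ o)⁻¹ ∈ F) (h2 : ∃ o : ℤ, |o| ≤ c ∧ x * B.q b₂ * (B.q a ^ o)⁻¹ ∈ F) :
    ∃ s₁ s₂, Leaves a F x b₁ b₂ j c s₁ s₂ := by
  obtain ⟨o₁, a1, a2⟩ := h1
  obtain ⟨o₂, a3, a4⟩ := h2
  obtain ⟨δ, hδ, e1⟩ := H.hcom j (B.q b₂)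
  have hn := H.nrm
  refine ⟨_, x * B.q a ^ j * B.q b₂ * (B.q a ^ (o₂ + j))⁻¹, a2, ?_, ⟨o₁, a1, by group⟩, ⟨o₂ + j, ?_, by group⟩⟩
  · have h3 := hF.inv _ a4 _ (hn.conj_mem δ hδ (B.q a ^ (o₂ + (j : ℤ))))
    have e2 : x * B.q b₂ * (B.q a ^ o₂)⁻¹ * (B.q a ^ (o₂ + (j : ℤ)) * δ * (B.q a ^ (o₂ + (j : ℤ)))⁻¹) =
        x * B.q a ^ j * B.q b₂ * (B.q a ^ (o₂ + (j : ℤ)))⁻¹ := by
      have e3 : x * B.q a ^ j * B.q b₂ = x * (B.q b₂ * B.q a ^ j * δ) := by rw [← e1, mul_assoc]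
      rw [e3, zpow_add, zpow_natCast]
      group
    rwa [e2] at h3
  · calc |o₂ + (j : ℤ)| ≤ |o₂| + |(j : ℤ)| := abs_add_le _ _
      _ ≤ c + j := by rw [abs_of_nonneg (Int.natCast_nonneg j)]; omega

end hyp

end Pool.Agent.Lib.MP_688fd0_co.SQ2
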