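import Pool.Agent.Lib.MP_688fd0_co.SQ2.Iface
import Pool.Agent.Lib.MP_688fd0_co.OSF.H74.Str
import Pool.Agent.Lib.MP_688fd0_co.OSF.H3.Main

/-!
STR2: the structural theorem, from HEART, SCALE, KAP, DSTR.
-/

set_option autoImplicit false

namespace Pool.Agent.Lib.MP_688fd0_co.SQ2

open Pool.Agent.Lib.MP_688fd0_co.OSF
open Subgroup

/-- The labels in a quotient. -/
def qLb {G : Type} [Group G] (M : Subgroup G) [M.Normal] (A : Set G) (hsym : ∀ x ∈ A, x⁻¹ ∈ A)
    (h1 : ∀ g ∈ A, g ∈ M → g = 1) : Lb.{0, 0} (G ⧸ M) where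
  L := {g : G // g ∈ A ∧ g ≠ 1}
  q := fun g => QuotientGroup.mk' M g.1
  inv := fun g => ⟨g.1⁻¹, hsym _ g.2.1, inv_ne_one.2 g.2.2⟩
  q_inv := fun _ => map_inv _ _
  ne_one := fun g h => g.2.2 (h1 _ g.2.1 ((QuotientGroup.eq_one_iff _).1 h))

section

variable {G : Type} [Group G] (M : Subgroup G) [M.Normal] (A : Set G) (hsym : ∀ x ∈ A, x⁻¹ ∈ A)
    (h1 : ∀ g ∈ A, g ∈ M → g = 1)

theorem qLb_gen (hgen : closure A = ⊤) : closure (Set.range (qLb M A hsym h1).q) = ⊤ := by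
  have hsur : Function.Surjective (QuotientGroup.mk' M) := QuotientGroup.mk'_surjective M
  have h2 : closure (QuotientGroup.mk' M '' A) = ⊤ := by
    rw [← MonoidHom.map_closure, hgen, ← MonoidHom.range_eq_map, MonoidHom.range_eq_top]
    exact hsur
  rw [eq_top_iff, ← h2, closure_le]
  rintro _ ⟨g, hg, rfl⟩
  by_cases hg1 : g = 1
  · rw [hg1, map_one]; exact one_mem _
  · exact subset_closure ⟨⟨g, hg, hg1⟩, rfl⟩

/-- A homomorphism between the quotients. -/
theorem qLb_fin (M' : Subgroup G) [M'.Normal] (h1' : ∀ g ∈ A, g ∈ M' → g = 1) (φ : G ⧸ M →* G ⧸ M')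
    (hφ : ∀ g : G, φ (g : G ⧸ M) = (g : G ⧸ M')) (l : List {g : G // g ∈ A ∧ g ≠ 1}) (x : G ⧸ M) :
    φ ((qLb M A hsym h1).fin x l) = (qLb M' A hsym h1').fin (φ x) l := by
  induction l generalizing x with
  | nil => rfl
  | cons g l ih =>
    have h2 := ih (x * (g.1 : G ⧸ M))
    rw [map_mul, hφ] at h2
    exact h2

end

theorem ecl_le {G : Type} [Group G] (a : G) : Ecl a ≤ commutator G := by
  unfold Ecl
  refine normalClosure_le_normal ?_
  rintro x ⟨g, rfl⟩
  rw [SetLike.mem_coe, commutator_eq_closure]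
  exact subset_closure ⟨a, g, rfl⟩

theorem needW_mono {ρ r r' k c : ℕ} (h : r ≤ r') : needW ρ r k c ≤ needW ρ r' k c := by
  unfold needW
  have h1 : 2 ^ r ≤ 2 ^ r' := Nat.pow_le_pow_right (by norm_num) h
  gcongr

theorem str2 (hHe : HeartS) (hSc : ScaleS) (hK : KapS) (hD : DstrS) (hM : Main2S.{0}) (hF : FactorS.{0, 0})
    (hH : HdataS.{0}) : Str2S := by
  classical
  obtain ⟨c₁, hSc⟩ := hSc
  refine ⟨2 * c₁ + 7, ?_⟩
  intro G _ _ N C k P A hg hodd hsym hgen hA1 hPb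
  have := hg.Cn
  have := hg.Nn
  have hCle := hg.CN
  have hPp := hg.prime
  have hPG : P ∣ Nat.card G := hg.dvd.trans (card_subgroup_dvd_card N)
  have hω : 1 ≤ (Nat.card G).primeFactorsList.length :=
    List.length_pos_of_mem ((Nat.mem_primeFactorsList Nat.card_pos.ne').2 ⟨hPp, hPG⟩)
  have hk : 1 ≤ k := by
    rw [← hg.idx]
    exact Nat.pos_of_ne_zero N.index_ne_zero_of_finite
  have hkG : k ∣ Nat.card G := by rw [← hg.idx]; exact N.index_dvd_card
  have hPk : ¬ P ∣ k := fun h =>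
    hPp.one_lt.ne' (Nat.eq_one_of_dvd_coprimes hg.cop hg.dvd h)
  have hNC : Nat.card (N.map (QuotientGroup.mk' C)) * Nat.card C = Nat.card N := by
    rw [← relIndex_ker, QuotientGroup.ker_mk', mul_comm]
    have h2 := (C.subgroupOf N).card_mul_index
    rwa [Nat.card_congr (subgroupOfEquivOfLe hCle).toEquiv] at h2
  -- the choice of `a` in `G / C`
  have hPC : P ∣ Nat.card (center (G ⧸ C)) := by
    have h1 : P ∣ Nat.card (N.map (QuotientGroup.mk' C)) := by
      have h2 := hg.dvd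
      rw [← hNC] at h2
      exact (hPp.dvd_mul.1 h2).resolve_right hg.ndvd
    refine h1.trans (card_dvd_of_le ?_)
    rintro _ ⟨n, hn, rfl⟩
    rw [mem_center_iff]
    intro y
    obtain ⟨g, rfl⟩ := QuotientGroup.mk'_surjective C y
    rw [← map_mul, ← map_mul]
    have h3 := hg.cen n hn g
    rw [← QuotientGroup.eq_one_iff] at h3
    have h4 : QuotientGroup.mk' C (n * g * n⁻¹ * g⁻¹) = 1 := h3
    rw [map_mul, map_mul, map_inv, map_inv, mul_inv_eq_one, mul_inv_eq_iff_eq_mul] at h4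
    rw [h4, map_mul]
  have hPsq : ¬ P ^ 2 ∣ Nat.card (G ⧸ C) := by
    intro h
    have h1 : P ^ 2 ∣ Nat.card N * N.index := by
      rw [N.card_mul_index]
      exact h.trans ⟨_, Subgroup.card_eq_card_quotient_mul_card_subgroup C⟩
    have h2 : (P ^ 2).Coprime N.index := by
      rw [hg.idx]
      exact Nat.Coprime.pow_left 2 ((Nat.Prime.coprime_iff_not_dvd hPp).2 hPk)
    exact hg.sq (h2.dvd_of_dvd_mul_right h1)
  set B₀ := qLb C A hsym hA1 with hB₀
  have hfinL : Finite B₀.L := inferInstanceAs (Finite {g : G // g ∈ A ∧ g ≠ 1})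
  have hcard : Nat.card B₀.L ≤ Nat.card A := by
    refine Nat.card_le_card_of_injective (fun g : B₀.L => (⟨g.1, g.2.1⟩ : A)) ?_
    intro g h hgh
    exact Subtype.ext (congrArg (fun t : A => (t : G)) hgh)
  have hr : (Nat.card C).primeFactors.card ≤ (Nat.card G).primeFactorsList.length :=
    (Finset.card_le_card (Nat.primeFactors_mono (card_subgroup_dvd_card _) Nat.card_pos.ne')).trans
      (List.toFinset_card_le _)
  obtain ⟨x, hx⟩ : ∃ x, x = k + Nat.card A + (Nat.card G).primeFactorsList.length := ⟨_, rfl⟩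
  rw [← hx] at hPb
  have hx2 : 2 ≤ x := by omega
  have hPb1 : 2 ^ ((k + Nat.card B₀.L + (Nat.card C).primeFactors.card + 1) ^ c₁) ≤ P := by
    refine le_trans (Nat.pow_le_pow_right (by norm_num) ?_) hPb
    have h1 : k + Nat.card B₀.L + (Nat.card C).primeFactors.card + 1 ≤ x ^ 2 := by
      have h2 : x * 2 ≤ x * x := Nat.mul_le_mul_left x hx2
      rw [pow_two]
      omega
    calc (k + Nat.card B₀.L + (Nat.card C).primeFactors.card + 1) ^ c₁ ≤ (x ^ 2) ^ c₁ := Nat.pow_le_pow_left h1 c₁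
      _ = x ^ (2 * c₁) := by rw [← pow_mul]
      _ ≤ x ^ (2 * c₁ + 7) := Nat.pow_le_pow_right (by omega) (by omega)
  obtain ⟨⟨a, haA, ha1⟩, hPa, hsc⟩ := hSc (G ⧸ C) B₀ k (Nat.card C).primeFactors.card P hfinL (by omega)
    (qLb_gen C A hsym hA1 hgen) hPp hPk hPC hPsq hPb1
  -- the subgroup `C₁`
  obtain ⟨C₁, hC₁⟩ : ∃ C₁, C₁ = C ⊓ Ecl a := ⟨_, rfl⟩
  have hC₁n : C₁.Normal := by rw [hC₁]; exact @Subgroup.normal_inf_normal _ _ _ _ _ normalClosure_normal
  have hC₁C : C₁ ≤ C := by rw [hC₁]; exact inf_le_left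
  have hC₁E : C₁ ≤ Ecl a := by rw [hC₁]; exact inf_le_right
  have hC₁N := hC₁C.trans hCle
  have := hg.Nc
  have hcyc : IsCyclic C₁ := isCyclic_of_injective (inclusion hC₁N) (inclusion_injective hC₁N)
  have hC₁d : Nat.card C₁ ∣ Nat.card C := card_dvd_of_le hC₁C
  have hcop : (Nat.card C₁).Coprime C₁.index := by
    rw [← relIndex_mul_index hC₁C]
    refine Nat.Coprime.mul_right ?_ (hg.Ccop.coprime_dvd_left hC₁d)
    have h1 : Nat.card C₁ * C₁.relIndex C = Nat.card C := by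
      have h2 := (C₁.subgroupOf C).card_mul_index
      rwa [Nat.card_congr (subgroupOfEquivOfLe hC₁C).toEquiv] at h2
    have hsq := hg.Csq
    rw [← h1] at hsq
    exact Nat.coprime_of_squarefree_mul hsq
  have hA1' : ∀ g ∈ A, g ∈ C₁ → g = 1 := fun g h h' => hA1 g h (hC₁C h')
  set B := qLb C₁ A hsym hA1' with hB
  obtain ⟨a', ha'⟩ : ∃ a' : B.L, a' = (⟨a, haA, ha1⟩ : {g : G // g ∈ A ∧ g ≠ 1}) := ⟨_, rfl⟩
  have hqa : B.q a' = QuotientGroup.mk' C₁ a := by rw [ha']; rfl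
  let φ : G ⧸ C₁ →* G ⧸ C := QuotientGroup.map C₁ C (MonoidHom.id G) hC₁C
  have hφ : ∀ g : G, φ (g : G ⧸ C₁) = (g : G ⧸ C) := fun g => rfl
  have hφs : Function.Surjective φ := by
    intro y
    obtain ⟨g, rfl⟩ := QuotientGroup.mk_surjective y
    exact ⟨(g : G ⧸ C₁), rfl⟩
  have hndvd : ¬ P ∣ Nat.card C₁ := fun h => hg.ndvd (h.trans hC₁d)
  by_cases htop : zpowers (B.q a') = ⊤
  · -- the quotient is cyclic
    have hcm : commutator G = C₁ := by
      apply le_antisymm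
      · rw [commutator_def, commutator_le]
        intro g _ h _
        rw [← QuotientGroup.eq_one_iff]
        have h1 : ∀ y : G ⧸ C₁, y ∈ zpowers (B.q a') := fun y => by rw [htop]; trivial
        obtain ⟨i, hi⟩ := mem_zpowers_iff.1 (h1 (g : G ⧸ C₁))
        obtain ⟨j, hj⟩ := mem_zpowers_iff.1 (h1 (h : G ⧸ C₁))
        show ((g : G ⧸ C₁) * (h : G ⧸ C₁) * (g : G ⧸ C₁)⁻¹ * (h : G ⧸ C₁)⁻¹) = 1
        rw [← hi, ← hj]
        group
      · exact hC₁E.trans (ecl_le a)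
    have hPi : P ∣ (commutator G).index := by
      rw [← (commutator G).card_mul_index, hcm] at hPG
      rw [hcm]
      exact (hPp.dvd_mul.1 hPG).resolve_left hndvd
    refine hM G A ⟨a, haA⟩ hsym hgen hodd (by rw [hcm]; exact hcyc) ?_ (by rw [hcm]; exact hcop) P hPp hPi ?_ ?_
    · rw [hcm]; exact hg.Csq.squarefree_of_dvd hC₁d
    · intro p hp
      rw [hcm] at hp
      exact (hg.big p (Nat.primeFactors_mono hC₁d Nat.card_pos.ne' hp)).2
    · refine le_trans (Nat.pow_le_pow_right (by norm_num) ?_) hPb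
      have h1 : (Nat.card G).primeFactorsList.length ≤ x := by omega
      have h2 : 64 ≤ x ^ 6 := by
        calc 64 = 2 ^ 6 := by norm_num
          _ ≤ x ^ 6 := Nat.pow_le_pow_left hx2 6
      calc 60 * (Nat.card G).primeFactorsList.length ≤ x ^ 6 * x := Nat.mul_le_mul (by omega) h1
        _ = x ^ 7 := by ring
        _ ≤ x ^ (2 * c₁ + 7) := Nat.pow_le_pow_right (by omega) (by omega)
  -- the heart
  obtain ⟨D, z, u, hDn, hDk, hz, hzm, huN, huz, -⟩ := hD G N C k P hg a C₁ hC₁n hC₁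
  have hD₀n : (D.map φ).Normal := hDn.map φ hφs
  have hD₀k : Nat.card (D.map φ) ∣ k := (card_map_dvd D φ).trans hDk
  obtain ⟨c, W, hSi, hSe, hLe, hW1, hW2⟩ := hsc (D.map φ) hD₀k hD₀n
  obtain ⟨s, zz, chi, ν, h1, h2, h3, h4, h5, h6, h7, h8⟩ := hH G C₁ hC₁n hcyc hcop
  have hm0 : 0 < Nat.card C₁ := Nat.card_pos
  have : NeZero (Nat.card C₁) := ⟨hm0.ne'⟩
  have : Fintype (G ⧸ C₁) := Fintype.ofFinite _
  let V : Vd B (ZMod (Nat.card C₁)) :=
    { chi := chi
      n := fun g => ν g.1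
      n_inv := fun g => h6 g.1 }
  have hqq : ∀ b : B.L, φ (B.q b) = B₀.q b := fun b => rfl
  have hyp : Hyp B a' D z k := by
    refine ⟨inferInstance, ?_, hfinL, qLb_gen C₁ A hsym hA1' hgen, hDn, hDk, ?_, hz, ?_⟩
    · exact Odd.of_dvd_nat hodd ⟨_, Subgroup.card_eq_card_quotient_mul_card_subgroup C₁⟩
    · exact Odd.of_dvd_nat hodd hkG
    · rw [hqa]; exact hzm
  have hSi' : Sink B a' D W := by
    intro b j hj1 hj2 hmem
    refine hSi b j hj1 hj2 ?_
    have h9 := mem_map_of_mem φ hmem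
    rw [map_mul, map_inv, map_zpow, hqq, hqq, ha'] at h9
    exact h9
  have hSe' : Sep B a' D c W := by
    intro l j hl hj1 hj2 hmem
    refine hSe l j hl hj1 hj2 ?_
    have h9 := mem_map_of_mem φ hmem
    rw [map_mul, map_inv, map_zpow, hqq, ha'] at h9
    have h10 : φ (B.fin 1 l) = B₀.fin 1 l := by
      have := qLb_fin C₁ A hsym hA1' C hA1 φ hφ l 1
      rwa [map_one] at this
    rw [h10] at h9
    exact h9
  have hLe' : Lev B a' D W := by
    intro j hj1 hj2 hmem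
    refine hLe j hj1 hj2 ?_
    have h9 := mem_map_of_mem φ hmem
    rw [map_zpow, hqq, ha'] at h9
    exact h9
  have hkap : ∀ p, ∀ hp : p ∈ (Nat.card C₁).primeFactors, ∃ t,
      (V.map (red (Nat.dvd_of_mem_primeFactors hp))).kap a' t ≠ 0 := by
    intro p hp
    obtain ⟨t, htA, ht⟩ := hK G C₁ hC₁n A a s zz chi ν h1 h2 h3 h4 h5 hgen
      (fun c hc => hg.ncen c (hC₁C hc)) hC₁E p hp
    have ht1 : t ≠ 1 := by
      rintro rfl
      apply ht
      have h9 : ν 1 = 0 := by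
        have h10 := h5 1
        rw [map_one, map_one, mul_one] at h10
        have h11 := orderOf_dvd_of_pow_eq_one h10.symm
        rw [h3] at h11
        have h12 : (ν 1).val < Nat.card C₁ := ZMod.val_lt _
        have h13 := Nat.eq_zero_of_dvd_of_lt h11 h12
        exact (ZMod.val_eq_zero _).1 h13
      rw [h9, map_one, map_one]
      simp
    refine ⟨(⟨t, htA, ht1⟩ : {g : G // g ∈ A ∧ g ≠ 1}), ?_⟩
    rw [Str.map_kap]
    have h9 : V.kap a' (⟨t, htA, ht1⟩ : {g : G // g ∈ A ∧ g ≠ 1}) = (chi (QuotientGroup.mk' C₁ a) - 1) * ν t -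
        (chi (QuotientGroup.mk' C₁ t) - 1) * ν a := by
      rw [ha']; rfl
    rw [h9]
    exact ht
  have hoa : P ≤ orderOf (B.q a' ^ k) := by
    have h9 : P ∣ orderOf (B.q a') := by
      have h10 : B₀.q ⟨a, haA, ha1⟩ = φ (B.q a') := by rw [hqq, ha']
      rw [h10] at hPa
      exact hPa.trans (orderOf_map_dvd φ _)
    have h11 : P ∣ orderOf (B.q a' ^ k) := by
      have h12 : B.q a' ^ (k * orderOf (B.q a' ^ k)) = 1 := by rw [pow_mul, pow_orderOf_eq_one]
      have h13 := h9.trans (orderOf_dvd_of_pow_eq_one h12)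
      exact (hPp.dvd_mul.1 h13).resolve_left hPk
    exact Nat.le_of_dvd (orderOf_pos _) h11
  obtain ⟨T, hT⟩ := hHe (G ⧸ C₁) B a' D z k hyp htop c W hSi' hSe' hLe' (Nat.card C₁) V
    (Odd.of_dvd_nat hodd (card_subgroup_dvd_card C₁)) (by
      show chi z = 1
      rw [← huz]
      refine h8 u fun c hc => ?_
      have hcn := hC₁N hc
      obtain ⟨w, hw⟩ := IsCyclic.exists_generator (α := N)
      obtain ⟨i, hi⟩ := mem_zpowers_iff.1 (hw ⟨u, huN⟩)
      obtain ⟨j, hj⟩ := mem_zpowers_iff.1 (hw ⟨c, hcn⟩)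
      have h9 : (⟨u, huN⟩ : N) * ⟨c, hcn⟩ = ⟨c, hcn⟩ * ⟨u, huN⟩ := by
        rw [← hi, ← hj, ← zpow_add, ← zpow_add, add_comm]
      exact congrArg Subtype.val h9) (fun p hp => (hg.big p (Nat.primeFactors_mono hC₁d Nat.card_pos.ne' hp)).1) hkap
    ((needW_mono (Finset.card_le_card (Nat.primeFactors_mono hC₁d Nat.card_pos.ne'))).trans hW1)
    (lt_of_lt_of_le hW2 hoa)
  have hz1 : QuotientGroup.mk' C₁ zz = 1 := by
    rw [QuotientGroup.mk'_apply, QuotientGroup.eq_one_iff, ← h2]; exact mem_zpowers zz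
  exact hF G (G ⧸ C₁) (Nat.card C₁) (QuotientGroup.mk' C₁) s zz chi ν hm0 h1 hz1 h3
    (fun g hg => by rw [h2]; exact (QuotientGroup.eq_one_iff g).1 hg) h4 h5 A (fun x => (T.lab x).1)
    (fun x => (T.lab x).2.1) T.trans hT

end Pool.Agent.Lib.MP_688fd0_co.SQ2
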